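import Pool.Agent.Helper86.Flow.Law

/-!
# A zero-one law for Tutte's 5-flow conjecture on random cubic graphs

A pair `(π, μ)` of permutations of the vertices, `μ` an involution without fixed points, stands for
the cubic multigraph with the edges `v → π v` (a 2-factor) and the edges `{v, μ v}` (a perfect
matching). By Petersen's theorem every bridgeless cubic multigraph arises in this way. Consider a
random pair, uniformly distributed over all `(2 l)! (2 l - 1)!!` pairs with `2 l` vertices. Let
`r = 2` or `r = 3`.

If the 5-flow conjecture fails for some `r`-edge-connected cubic graph with `2 k` vertices, then,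
for all `l ≥ k`, the random graph with `2 l` vertices is an `r`-edge-connected counterexample with
probability at least `1 / ((2 k - 1)! (2 l) ^ (k + 1))`. So either the conjecture is true, or the
probability of a counterexample is at least a power of `1 / l` for all large `l`; the conjecture
follows if this probability is smaller than every power of `1 / l` for a sequence of `l`.

Proof: a vertex of the counterexample is replaced by a long path, one vertex of which keeps the
third edge while the others are joined by chords. Nowhere-zero flows of the new graph give such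
flows of the old one. If each chord is added between different edges of the path, then the new
graph is 3-edge-connected if the old one is. This gives `(2 m - 1)!!` graphs for the addition of
`2 m` vertices.
-/

set_option autoImplicit false

namespace Pool.Agent.Results.MP_974d84_co.ZeroOneLaw

open Equiv Filter

/-- `μ` is a perfect matching: an involution without fixed points. -/
def IsMatching {n : ℕ} (μ : Perm (Fin n)) : Prop := ∀ v, μ v ≠ v ∧ μ (μ v) = v

/-- The number of the edges `v → π v` and `{v, μ v}` with exactly one end in `S`. -/
noncomputable def cut {n : ℕ} (π μ : Perm (Fin n)) (S : Set (Fin n)) : ℕ :=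
  {v | v ∈ S ∧ π v ∉ S}.ncard + {v | v ∉ S ∧ π v ∈ S}.ncard + {v | v ∈ S ∧ μ v ∉ S}.ncard

/-- The graph is `r`-edge-connected: at least `r` edges leave every set of vertices which is neither
empty nor the whole set. For `r = 2` this means: connected and bridgeless. -/
def EdgeConnected {n : ℕ} (r : ℕ) (π μ : Perm (Fin n)) : Prop :=
  ∀ S : Set (Fin n), S.Nonempty → S ≠ Set.univ → r ≤ cut π μ S

/-- The graph has a nowhere-zero flow with values in `ℤ / 5`: `f v` is the value on the edge from
`v` to `π v`, and `g v` the value on the matching edge at `v`, counted away from `v`. -/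
def HasFiveFlow {n : ℕ} (π μ : Perm (Fin n)) : Prop :=
  ∃ f g : Fin n → ZMod 5, (∀ v, f v ≠ 0 ∧ g v ≠ 0) ∧ (∀ v, g (μ v) = -g v) ∧
    ∀ v, f (π v) + g (π v) = f v

/-- All cubic graphs `(π, μ)` with the vertices `0, …, n - 1`. -/
def Cubic (n : ℕ) : Set (Perm (Fin n) × Perm (Fin n)) := {p | IsMatching p.2}

/-- The `r`-edge-connected counterexamples to the 5-flow conjecture among them. -/
def Counterexamples (r n : ℕ) : Set (Perm (Fin n) × Perm (Fin n)) :=
  {p | p ∈ Cubic n ∧ EdgeConnected r p.1 p.2 ∧ ¬ HasFiveFlow p.1 p.2}

/-- **A zero-one law for the 5-flow conjecture.** (1) There are `(2 l)! (2 l - 1)!!` cubic graphs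
`(π, μ)` with `2 l` vertices. Let `r = 2` or `r = 3`. (2) If there is an `r`-edge-connected
counterexample with `2 k` vertices then for all `l ≥ k` at least the proportion
`1 / ((2 k - 1)! (2 l) ^ (k + 1))` of the cubic graphs with `2 l` vertices are `r`-edge-connected
counterexamples. (3) So there is no `r`-edge-connected counterexample, or the proportion is at least
`(2 l) ^ (-C)` for a constant `C` and all large `l`. (4) The 5-flow conjecture for the
`r`-edge-connected cubic graphs is equivalent to: for every `C` there are arbitrarily large `l` for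
which the proportion of the counterexamples with `2 l` vertices is less than `(2 l) ^ (-C)`. -/
theorem result :
    (∀ l : ℕ, (Cubic (2 * l)).ncard = (2 * l).factorial * (2 * l - 1).doubleFactorial) ∧
    ∀ r : ℕ, r = 2 ∨ r = 3 →
      (∀ k l : ℕ, k ≤ l → (Counterexamples r (2 * k)).Nonempty →
        (Cubic (2 * l)).ncard ≤
          (2 * k - 1).factorial * ((2 * l) ^ (k + 1) * (Counterexamples r (2 * l)).ncard)) ∧
      ((∀ n : ℕ, Counterexamples r n = ∅) ∨ ∃ C : ℕ, ∀ᶠ l : ℕ in atTop,
        (Cubic (2 * l)).ncard ≤ (2 * l) ^ C * (Counterexamples r (2 * l)).ncard) ∧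
      ((∀ n : ℕ, Counterexamples r n = ∅) ↔ ∀ C : ℕ, ∃ᶠ l : ℕ in atTop,
        (2 * l) ^ C * (Counterexamples r (2 * l)).ncard < (Cubic (2 * l)).ncard) := by
  refine ⟨fun l => Helper86.Flow.ncard_cubic_even l, fun r hr => ?_⟩
  have hr2 : 2 ≤ r := by omega
  have hr3 : r ≤ 3 := by omega
  have hP : ∀ x : ZMod 5, x ≠ 0 → -x ≠ 0 := fun x hx => neg_ne_zero.mpr hx
  exact ⟨fun _ _ hkl h => Helper86.Flow.manyR (fun x : ZMod 5 => x ≠ 0) hr2 hr3 hP hkl h,
    Helper86.Flow.dichotomy (fun x : ZMod 5 => x ≠ 0) hr2 hr3 hP,
    Helper86.Flow.criterion (fun x : ZMod 5 => x ≠ 0) hr2 hr3 hP⟩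

end Pool.Agent.Results.MP_974d84_co.ZeroOneLaw
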